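import Pool.Agent.Lib.MP_86b630_nt.Avg81.Scales
import Pool.Agent.Lib.MP_86b630_nt.Avg81.Slow

set_option autoImplicit false

/-!
Normality of the Thue–Morse sequence along polynomials of degree at least two, on average over the
constant term of the polynomial.
-/

namespace Pool.Agent.Results.MP_86b630_nt.NormalOnAverage

open Finset Polynomial Filter Topology

/-- The number of `n < N` with `t(f(n + i)) = w i` for all `i < k`, where `t(m)` is the sum of the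
binary digits of `m` modulo `2`. -/
def wordCount {k : ℕ} (f : ℕ → ℤ) (w : Fin k → Fin 2) (N : ℕ) : ℕ :=
  #{n ∈ range N | ∀ i : Fin k, (Nat.digits 2 (f (n + i)).toNat).sum % 2 = (w i : ℕ)}

theorem result :
    (∀ d k A : ℕ, 2 ≤ d → ∃ η : ℝ, 0 < η ∧ ∃ K : ℕ, ∀ P : ℤ[X], P.natDegree = d →
      |P.leadingCoeff| ≤ A → (∀ n : ℕ, 0 ≤ P.eval (n : ℤ)) → ∀ M : ℕ, K ≤ M →
        (∀ N₀ : ℕ, M ≤ N₀ → ∃ E : Finset ℕ, (E.card : ℝ) ≤ (M : ℝ) ^ (1 - η) ∧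
          ∀ c < M, c ∉ E → ∀ N : ℕ, N₀ ≤ N → (N : ℝ) ≤ N₀ * Real.exp ((M : ℝ) ^ η) →
            ∀ w : Fin k → Fin 2,
              |(wordCount (fun n => P.eval (n : ℤ) + c) w N : ℝ) - N / 2 ^ k| ≤
                N * (M : ℝ) ^ (-η)) ∧
        (∃ E : Finset ℕ, (E.card : ℝ) ≤ (M : ℝ) ^ (1 - η) ∧
          ∀ c < M, c ∉ E → ∀ J₀ : ℕ, ∃ J : ℕ, J₀ ≤ J ∧
            ({j : ℕ | j < J ∧ ∃ N : ℕ, 2 ^ j ≤ N ∧ N ≤ 2 ^ (j + 1) ∧ ∃ w : Fin k → Fin 2,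
              N * (M : ℝ) ^ (-η) < |(wordCount (fun n => P.eval (n : ℤ) + c) w N : ℝ) -
                N / 2 ^ k|}.ncard : ℝ) ≤ J * (M : ℝ) ^ (-η))) ∧
    (∀ P : ℤ[X], 2 ≤ P.natDegree → (∀ n : ℕ, 0 ≤ P.eval (n : ℤ)) →
      ∀ h : ℕ → ℕ, Tendsto h atTop atTop → ∃ c : ℕ → ℕ, (∀ j, c j ≤ h j) ∧
        ∀ (k : ℕ) (w : Fin k → Fin 2), Tendsto (fun N : ℕ =>
          (wordCount (fun n => P.eval (n : ℤ) + c (Nat.log 2 n)) w N : ℝ) / N)
            atTop (𝓝 (1 / 2 ^ k))) := by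
  constructor
  · intro d k A hd
    obtain ⟨η, hη, K, _, h⟩ := Lib.MP_86b630_nt.Avg81.scales d k A hd
    have hct : ∀ (P : ℤ[X]) (c : ℕ) (w : Fin k → Fin 2) (N : ℕ),
        Lib.MP_86b630_nt.Avg81.ct P 0 c k w N =
          wordCount (fun n => P.eval (n : ℤ) + c) w N := by
      intro P c w N
      unfold Lib.MP_86b630_nt.Avg81.ct wordCount
      simp only [add_zero]
    simp only [hct] at h
    exact ⟨η, hη, K, h⟩
  · intro P hd hP h hh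
    exact Lib.MP_86b630_nt.Avg81.slow P hd hP h hh

end Pool.Agent.Results.MP_86b630_nt.NormalOnAverage
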