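import Pool.Agent.Lib.MP_86b630_nt.Main

/-! Occurrences of words in the Thue-Morse sequence along polynomials of degree at least three. -/

namespace Pool.Agent.Results.MP_86b630_nt.WordOccurrences

open Pool.Agent.Lib.MP_86b630_nt Finset Filter

/-- Let `P` be an integer polynomial of degree `d ≥ 3` with `P(n) ≥ 0` for all `n ≥ 0`. Every
word `w` over `{0, 1}` occurs in `t(P(0)), t(P(1)), t(P(2)), ...` at `≥ c N ^ (2 / (d + 1))`
positions `n < N` in every residue class. -/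
theorem result (P : Polynomial ℤ) (hd : 3 ≤ P.natDegree) (hP : ∀ n : ℕ, 0 ≤ P.eval (n : ℤ))
    (k : ℕ) (w : Fin k → ℕ) (hw : ∀ i, w i < 2) (q : ℕ) (hq : 0 < q) (a : ℕ) :
    ∃ c : ℝ, 0 < c ∧ ∀ᶠ N : ℕ in atTop,
      c * (N : ℝ) ^ ((2 : ℝ) / (P.natDegree + 1)) ≤
        (#{n ∈ range N | n ≡ a [MOD q] ∧
          ∀ i : Fin k, thueMorse (P.eval ((n + i : ℕ) : ℤ)).toNat = w i} : ℝ) :=
  main (by omega) hP w hw hq a

end Pool.Agent.Results.MP_86b630_nt.WordOccurrences
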